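import Mathlib
import Pool.Agent.Q267.ChapU

/-!
# The determinant of `x + ((j-k)/p)` of order `(p-1)/2` for `p ≡ 3 (mod 4)` is `x`

Let `A` be the Toeplitz matrix of the Legendre symbol of order `m = (p-1)/2` and `B` the one of
order `m + 1`, which has determinant `1` (Chapman's determinant; the proof in the library
`Helper184.Chapman` is used). With the solution `v` of `B v = e_m` one has
`det (A + x J) = x (∑ v_j)²`. The finite Fourier transform turns the system into an identity of
polynomials: a certain polynomial with even part `E` and odd part `O` vanishes at the `p - 1`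
numbers `(k/p) ζ^k`, and comparison of its values at `1` and `-1` gives `(∑ v_j)² = 1`.
-/

namespace Pool.Agent.Results.MP_d17a30_nt.DetEqualsX

open Polynomial Pool.Agent.Q267.ChapU Pool.Agent.Helper184.Chapman

/-- For every prime `p ≡ 3 (mod 4)` the determinant of the matrix
`[x + ((j-k)/p)]`, `0 ≤ j, k < (p-1)/2`, over `ℤ[x]` equals `x`. -/
theorem result (p : ℕ) [Fact p.Prime] (hp : p % 4 = 3) :
    Matrix.det (Matrix.of fun j k : Fin ((p - 1) / 2) =>
      (X : ℤ[X]) + C (legendreSym p ((j : ℤ) - (k : ℤ)))) = X := by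
  obtain ⟨m, hm⟩ : ∃ m, p = 2 * m + 1 := ⟨p / 2, by omega⟩
  have hn : (p - 1) / 2 = m := by omega
  rw [hn]
  apply Polynomial.funext
  intro r
  rw [eval_X, ← Polynomial.coe_evalRingHom, RingHom.map_det]
  have h := det_int_m (p := p) hp hm r
  have e : (Polynomial.evalRingHom r).mapMatrix (Matrix.of fun j k : Fin m =>
      (X : ℤ[X]) + C (legendreSym p ((j : ℤ) - (k : ℤ))))
      = T p ℤ m + Matrix.of (fun _ _ => r) := by
    ext j k
    simp [T, legendreSym, add_comm]
  rw [e, h]

end Pool.Agent.Results.MP_d17a30_nt.DetEqualsX
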